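import Pool.Agent.R566.WPL.Model

/-!
# Basic facts about rotations and the weighted path length
-/

set_option autoImplicit false

namespace Pool.Agent.R566.WPL

namespace BST

/-- Strictly increasing symmetric order. -/
def Srt (T : BST) : Prop := T.inorder.Pairwise (· < ·)

lemma On.srt {n : ℕ} {T : BST} (h : On n T) : Srt T := by
  unfold Srt
  rw [h]
  exact List.pairwise_lt_range' (s := 1) (n := n) (step := 1) (by norm_num)

lemma srt_node {l r : BST} {k : ℕ} :
    Srt (node l k r) ↔ Srt l ∧ Srt r ∧ (∀ a ∈ l.inorder, a < k) ∧ ∀ b ∈ r.inorder, k < b := by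
  unfold Srt
  simp only [inorder, List.pairwise_append, List.pairwise_cons, List.mem_cons]
  constructor
  · rintro ⟨h1, ⟨h2, h3⟩, h4⟩
    exact ⟨h1, h3, fun a ha => h4 a ha k (Or.inl rfl), h2⟩
  · rintro ⟨h1, h2, h3, h4⟩
    refine ⟨h1, ⟨h4, h2⟩, ?_⟩
    rintro a ha b (rfl | hb)
    · exact h3 a ha
    · exact (h3 a ha).trans (h4 b hb)

/-- The weighted path length, computed along the tree, when the root is at depth `d`. -/
def wplFrom (f : ℕ → ℕ) : ℕ → BST → ℕ
  | _, leaf => 0
  | d, node l k r => f k * (1 + d) + wplFrom f (d + 1) l + wplFrom f (d + 1) r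

/-- Total weight. -/
def wt (f : ℕ → ℕ) : BST → ℕ
  | leaf => 0
  | node l k r => f k + wt f l + wt f r

lemma wplFrom_succ (f : ℕ → ℕ) (T : BST) : ∀ d : ℕ, wplFrom f (d + 1) T = wplFrom f d T + wt f T := by
  induction T with
  | leaf => intro d; rfl
  | node l k r ihl ihr =>
    intro d
    simp only [wplFrom, wt, ihl, ihr]
    ring

lemma wplFrom_eq (f : ℕ → ℕ) (T : BST) (hT : Srt T) : ∀ d : ℕ,
    (T.inorder.map fun i => f i * (1 + d + depth i T)).sum = wplFrom f d T := by
  induction T with
  | leaf => intro d; rfl
  | node l k r ihl ihr =>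
    intro d
    obtain ⟨hl, hr, h1, h2⟩ := srt_node.1 hT
    simp only [inorder, List.map_append, List.map_cons, List.sum_append, List.sum_cons, wplFrom]
    rw [← ihl hl (d + 1), ← ihr hr (d + 1)]
    have e1 : (l.inorder.map fun i => f i * (1 + d + depth i (node l k r))) =
        (l.inorder.map fun i => f i * (1 + (d + 1) + depth i l)) := by
      refine List.map_congr_left fun i hi => ?_
      simp only [depth, h1 i hi, if_true]
      ring
    have e2 : (r.inorder.map fun i => f i * (1 + d + depth i (node l k r))) =
        (r.inorder.map fun i => f i * (1 + (d + 1) + depth i r)) := by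
      refine List.map_congr_left fun i hi => ?_
      have h3 := h2 i hi
      simp only [depth, h3, if_true, not_lt.2 h3.le, if_false]
      ring
    rw [e1, e2]
    simp only [depth, lt_irrefl, if_false]
    ring

lemma wpl_eq (f : ℕ → ℕ) {T : BST} (hT : Srt T) : wpl f T = wplFrom f 0 T := by
  rw [← wplFrom_eq f T hT 0]
  unfold wpl
  refine congrArg List.sum (List.map_congr_left fun i _ => ?_)
  ring

lemma inorder_rotateRight (T : BST) : (rotateRight T).inorder = T.inorder := by
  unfold rotateRight
  split
  · simp [inorder]
  · rfl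

lemma inorder_rotateLeft (T : BST) : (rotateLeft T).inorder = T.inorder := by
  unfold rotateLeft
  split
  · simp [inorder]
  · rfl

lemma inorder_rotUp (x : ℕ) (T : BST) : (rotUp x T).inorder = T.inorder := by
  induction T with
  | leaf => rfl
  | node l k r ihl ihr =>
    simp only [rotUp]
    split_ifs
    · exact inorder_rotateRight _
    · simp [inorder, ihl]
    · exact inorder_rotateLeft _
    · simp [inorder, ihr]
    · rfl

lemma srt_rotUp {x : ℕ} {T : BST} (h : Srt T) : Srt (rotUp x T) := by
  unfold Srt at *
  rw [inorder_rotUp]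
  exact h

lemma inorder_climb (f : ℕ → ℕ) (x : ℕ) : ∀ (m : ℕ) (T : BST),
    (climb f x m T).1.inorder = T.inorder := by
  intro m
  induction m with
  | zero => intro T; rfl
  | succ m ih =>
    intro T
    simp only [climb]
    split_ifs
    · simp only [ih, inorder_rotUp]
    · rfl

lemma depth_le_length (x : ℕ) (T : BST) : depth x T ≤ T.inorder.length := by
  induction T with
  | leaf => simp [depth]
  | node l k r ihl ihr =>
    simp only [depth, inorder, List.length_append, List.length_cons]
    split_ifs <;> omega

/-! ### The counters and the tree after a sequence of accesses -/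

/-- The counters and the tree after serving a sequence. -/
def run : (ℕ → ℕ) → BST → List ℕ → (ℕ → ℕ) × BST
  | f, T, [] => (f, T)
  | f, T, x :: σ => run (Function.update f x (f x + 1))
      (climb (Function.update f x (f x + 1)) x (depth x T) T).1 σ

lemma run_append (σ τ : List ℕ) : ∀ (f : ℕ → ℕ) (T : BST),
    run f T (σ ++ τ) = run (run f T σ).1 (run f T σ).2 τ := by
  induction σ with
  | nil => intro f T; rfl
  | cons x σ ih => intro f T; simp only [List.cons_append, run, ih]

lemma wplCostFrom_append (σ τ : List ℕ) : ∀ (f : ℕ → ℕ) (T : BST),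
    wplCostFrom f T (σ ++ τ) = wplCostFrom f T σ + wplCostFrom (run f T σ).1 (run f T σ).2 τ := by
  induction σ with
  | nil => intro f T; simp [wplCostFrom, run]
  | cons x σ ih => intro f T; simp only [List.cons_append, wplCostFrom, run, ih]; ring

lemma inorder_run (σ : List ℕ) : ∀ (f : ℕ → ℕ) (T : BST), (run f T σ).2.inorder = T.inorder := by
  induction σ with
  | nil => intro f T; rfl
  | cons x σ ih => intro f T; simp only [run, ih, inorder_climb]

end BST

end Pool.Agent.R566.WPL
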