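import Pool.Agent.R566.WPL.Zigzag

/-!
# Forcing the zigzag path from an arbitrary initial tree
-/

set_option autoImplicit false

namespace Pool.Agent.R566.WPL

namespace BST

/-- The part of the tree with keys below `b`. -/
def ltT (b : ℕ) : BST → BST
  | leaf => leaf
  | node l k r => if b ≤ k then ltT b l else node l k (ltT b r)

/-- The part of the tree with keys above `a`. -/
def gtT (a : ℕ) : BST → BST
  | leaf => leaf
  | node l k r => if k ≤ a then gtT a r else node (gtT a l) k r

/-- Move `x` to the root by single rotations. -/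
def mtr (x : ℕ) (T : BST) : BST := node (ltT x T) x (gtT x T)

lemma gtT_ltT {a b : ℕ} (hab : a < b) (T : BST) : gtT a (ltT b T) = ltT b (gtT a T) := by
  induction T with
  | leaf => rfl
  | node l k r ihl ihr =>
    by_cases h1 : b ≤ k
    · have h2 : ¬ k ≤ a := by omega
      simp only [ltT, gtT, h1, h2, if_true, if_false, ihl]
    · by_cases h2 : k ≤ a
      · simp only [ltT, gtT, h1, h2, if_true, if_false, ihr]
      · simp only [ltT, gtT, h1, h2, if_false]

lemma ltT_self {b : ℕ} (T : BST) (h : ∀ x ∈ T.inorder, x < b) : ltT b T = T := by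
  induction T with
  | leaf => rfl
  | node l k r ihl ihr =>
    simp only [inorder, List.mem_append, List.mem_cons] at h
    have h1 : ¬ b ≤ k := not_le.2 (h k (Or.inr (Or.inl rfl)))
    simp only [ltT, h1, if_false, ihr fun x hx => h x (Or.inr (Or.inr hx))]

lemma gtT_self {a : ℕ} (T : BST) (h : ∀ x ∈ T.inorder, a < x) : gtT a T = T := by
  induction T with
  | leaf => rfl
  | node l k r ihl ihr =>
    simp only [inorder, List.mem_append, List.mem_cons] at h
    have h1 : ¬ k ≤ a := not_le.2 (h k (Or.inr (Or.inl rfl)))
    simp only [gtT, h1, if_false, ihl fun x hx => h x (Or.inl hx)]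

lemma ltT_gtT_leaf {a b : ℕ} (hab : b ≤ a + 1) (T : BST) : ltT b (gtT a T) = leaf := by
  induction T with
  | leaf => rfl
  | node l k r ihl ihr =>
    by_cases h2 : k ≤ a
    · simp only [gtT, h2, if_true, ihr]
    · have h1 : b ≤ k := by omega
      simp only [ltT, gtT, h1, h2, if_true, if_false, ihl]

lemma restrict_mtr {a b x : ℕ} (hax : a < x) (hxb : x < b) (T : BST) :
    ltT b (gtT a (mtr x T)) = node (ltT x (gtT a T)) x (ltT b (gtT x T)) := by
  have h1 : ¬ x ≤ a := by omega
  have h2 : ¬ b ≤ x := by omega
  unfold mtr
  simp only [gtT, ltT, h1, h2, if_false, gtT_ltT hax]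

/-- Moving the keys of the zigzag path to the root, the last one first, gives the zigzag path. -/
lemma restrict_foldr (T : BST) (n : ℕ) : ∀ (lo : ℕ) (b : Bool),
    ltT (lo + 1 + n) (gtT lo ((ord n (lo + 1) b).foldr mtr T)) = zz n (lo + 1) b := by
  induction n with
  | zero => intro lo b; exact ltT_gtT_leaf (by omega) _
  | succ n ih =>
    intro lo b
    cases b
    · simp only [ord, List.foldr_cons, zz]
      rw [restrict_mtr (by omega) (by omega), ih lo true, ltT_gtT_leaf (by omega)]
    · simp only [ord, List.foldr_cons, zz]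
      rw [restrict_mtr (by omega) (by omega), ltT_gtT_leaf (by omega)]
      have h := ih (lo + 1) false
      rw [show lo + 1 + (n + 1) = lo + 1 + 1 + n by ring, h]

lemma mtr_rotUp (x : ℕ) (T : BST) : mtr x (rotUp x T) = mtr x T := by
  unfold mtr
  have key : ltT x (rotUp x T) = ltT x T ∧ gtT x (rotUp x T) = gtT x T := by
    induction T with
    | leaf => exact ⟨rfl, rfl⟩
    | node l k r ihl ihr =>
      simp only [rotUp]
      split_ifs with h1 h2 h3 h4
      · cases l with
        | leaf => simp [rootIs] at h2
        | node a y b =>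
          simp only [rootIs] at h2
          subst h2
          have h5 : y ≤ k := h1.le
          have h6 : ¬ k ≤ y := not_le.2 h1
          simp [rotateRight, ltT, gtT, h5, h6]
      · have h5 : x ≤ k := h1.le
        have h6 : ¬ k ≤ x := not_le.2 h1
        simp [ltT, gtT, h5, h6, ihl.1, ihl.2]
      · cases r with
        | leaf => simp [rootIs] at h4
        | node a y b =>
          simp only [rootIs] at h4
          subst h4
          have h5 : k ≤ y := h3.le
          have h6 : ¬ y ≤ k := not_le.2 h3
          simp [rotateLeft, ltT, gtT, h5, h6]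
      · have h5 : k ≤ x := h3.le
        have h6 : ¬ x ≤ k := not_le.2 h3
        simp [ltT, gtT, h5, h6, ihr.1, ihr.2]
      · exact ⟨rfl, rfl⟩
  rw [key.1, key.2]

lemma mtr_climb (f : ℕ → ℕ) (x : ℕ) : ∀ (m : ℕ) (T : BST), mtr x (climb f x m T).1 = mtr x T := by
  intro m
  induction m with
  | zero => intro T; rfl
  | succ m ih =>
    intro T
    simp only [climb]
    split_ifs
    · simp only [ih, mtr_rotUp]
    · rfl

lemma mtr_root {T : BST} {x : ℕ} (hT : Srt T) (hx : x ∈ T.inorder) (h0 : depth x T = 0) :
    mtr x T = T := by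
  cases T with
  | leaf => simp [inorder] at hx
  | node l k r =>
    obtain ⟨hl, hr, h1, h2⟩ := srt_node.1 hT
    simp only [depth] at h0
    split_ifs at h0 with h3 h4
    have h5 : x = k := by omega
    subst h5
    simp only [mtr, ltT, gtT, le_refl, if_true]
    rw [ltT_self l h1, gtT_self r h2]

lemma rootIs_of_depth {T : BST} {x : ℕ} (hx : x ∈ T.inorder) (h0 : depth x T = 0) :
    rootIs x T := by
  cases T with
  | leaf => simp [inorder] at hx
  | node l k r =>
    simp only [depth] at h0
    split_ifs at h0 with h3 h4
    simp only [rootIs]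
    omega

lemma mem_of_lt {l r : BST} {k x : ℕ} (hT : Srt (node l k r)) (hx : x ∈ (node l k r).inorder)
    (h : x < k) : x ∈ l.inorder := by
  obtain ⟨hl, hr, h1, h2⟩ := srt_node.1 hT
  simp only [inorder, List.mem_append, List.mem_cons] at hx
  rcases hx with hx | hx | hx
  · exact hx
  · omega
  · have := h2 x hx
    omega

lemma mem_of_gt {l r : BST} {k x : ℕ} (hT : Srt (node l k r)) (hx : x ∈ (node l k r).inorder)
    (h : k < x) : x ∈ r.inorder := by
  obtain ⟨hl, hr, h1, h2⟩ := srt_node.1 hT
  simp only [inorder, List.mem_append, List.mem_cons] at hx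
  rcases hx with hx | hx | hx
  · have := h1 x hx
    omega
  · omega
  · exact hx

lemma depth_rotUp {x : ℕ} {T : BST} (hT : Srt T) (hx : x ∈ T.inorder) :
    depth x (rotUp x T) = depth x T - 1 := by
  induction T with
  | leaf => rfl
  | node l k r ihl ihr =>
    obtain ⟨hl, hr, h1, h2⟩ := srt_node.1 hT
    simp only [rotUp]
    split_ifs with h3 h4 h5 h6
    · cases l with
      | leaf => simp [rootIs] at h4
      | node a y b =>
        simp only [rootIs] at h4
        subst h4
        simp [rotateRight, depth, h3]
    · have hxl := mem_of_lt hT hx h3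
      have h7 : depth x l ≠ 0 := fun h => h4 (rootIs_of_depth hxl h)
      simp only [depth, h3, if_true, ihl hl hxl]
      omega
    · cases r with
      | leaf => simp [rootIs] at h6
      | node a y b =>
        simp only [rootIs] at h6
        subst h6
        have h8 : ¬ y < k := by omega
        simp [rotateLeft, depth, h5, h8]
    · have hxr := mem_of_gt hT hx h5
      have h7 : depth x r ≠ 0 := fun h => h6 (rootIs_of_depth hxr h)
      simp only [depth, h3, h5, if_true, if_false, ihr hr hxr]
      omega
    · simp [depth, h3, h5]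

lemma wt_eq (f : ℕ → ℕ) (T : BST) : wt f T = (T.inorder.map f).sum := by
  induction T with
  | leaf => rfl
  | node l k r ihl ihr =>
    simp only [wt, inorder, List.map_append, List.map_cons, List.sum_append, List.sum_cons, ihl, ihr]
    ring

lemma le_wt (f : ℕ → ℕ) {T : BST} {x : ℕ} (hx : x ∈ T.inorder) : f x ≤ wt f T := by
  rw [wt_eq]
  exact List.single_le_sum (by simp) _ (List.mem_map_of_mem hx)

lemma wt_rotUp (f : ℕ → ℕ) (x : ℕ) (T : BST) : wt f (rotUp x T) = wt f T := by
  rw [wt_eq, wt_eq, inorder_rotUp]

/-- Rotating a key of dominating weight over its parent strictly decreases the weighted path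
length. -/
lemma wplFrom_rotUp_lt {f : ℕ → ℕ} {x : ℕ} {T : BST} (hT : Srt T) (hx : x ∈ T.inorder)
    (hw : wt f T < 2 * f x) (h0 : depth x T ≠ 0) : ∀ d : ℕ,
    wplFrom f d (rotUp x T) < wplFrom f d T := by
  induction T with
  | leaf => simp [inorder] at hx
  | node l k r ihl ihr =>
    intro d
    obtain ⟨hl, hr, h1, h2⟩ := srt_node.1 hT
    simp only [rotUp]
    split_ifs with h3 h4 h5 h6
    · cases l with
      | leaf => simp [rootIs] at h4
      | node a y b =>
        simp only [rootIs] at h4
        subst h4
        simp only [rotateRight, wplFrom, wplFrom_succ]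
        simp only [wt] at hw
        nlinarith [Nat.zero_le (wt f a), Nat.zero_le (wt f b)]
    · have hxl := mem_of_lt hT hx h3
      have h7 : depth x l ≠ 0 := fun h => h4 (rootIs_of_depth hxl h)
      simp only [wt] at hw
      have := ihl hl hxl (by omega) h7 (d + 1)
      simp only [wplFrom]
      omega
    · cases r with
      | leaf => simp [rootIs] at h6
      | node a y b =>
        simp only [rootIs] at h6
        subst h6
        simp only [rotateLeft, wplFrom, wplFrom_succ]
        simp only [wt] at hw
        nlinarith [Nat.zero_le (wt f a), Nat.zero_le (wt f b)]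
    · have hxr := mem_of_gt hT hx h5
      have h7 : depth x r ≠ 0 := fun h => h6 (rootIs_of_depth hxr h)
      simp only [wt] at hw
      have := ihr hr hxr (by omega) h7 (d + 1)
      simp only [wplFrom]
      omega
    · simp [depth, h3, h5] at h0

lemma climb_dominant {f : ℕ → ℕ} {x : ℕ} : ∀ (m : ℕ) (T : BST), Srt T → x ∈ T.inorder →
    wt f T < 2 * f x → depth x T = m → (climb f x m T).1 = mtr x T := by
  intro m
  induction m with
  | zero => intro T hT hx _ h0; exact (mtr_root hT hx h0).symm
  | succ m ih =>
    intro T hT hx hw h0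
    have h1 : wpl f (rotUp x T) < wpl f T := by
      rw [wpl_eq f (srt_rotUp hT), wpl_eq f hT]
      exact wplFrom_rotUp_lt hT hx hw (by omega) 0
    simp only [climb, h1, if_true]
    rw [ih (rotUp x T) (srt_rotUp hT) (by rw [inorder_rotUp]; exact hx) (by rw [wt_rotUp]; exact hw)
      (by rw [depth_rotUp hT hx, h0]; rfl), mtr_rotUp]

lemma wt_update_le {f : ℕ → ℕ} {x K : ℕ} {T : BST} (hT : Srt T) :
    wt (Function.update f x (f x + K)) T ≤ wt f T + K := by
  have h0 : ∀ T : BST, x ∉ T.inorder → wt (Function.update f x (f x + K)) T = wt f T := by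
    intro T hx
    rw [wt_eq, wt_eq]
    refine congrArg List.sum (List.map_congr_left fun y hy => ?_)
    rw [Function.update_of_ne]
    rintro rfl
    exact hx hy
  induction T with
  | leaf => simp [wt]
  | node l k r ihl ihr =>
    obtain ⟨hl, hr, h1, h2⟩ := srt_node.1 hT
    simp only [wt]
    rcases lt_trichotomy x k with h | h | h
    · rw [Function.update_of_ne (ne_of_gt h), h0 r (fun hx => by have := h2 x hx; omega)]
      have := ihl hl
      omega
    · subst h
      rw [Function.update_self, h0 r (fun hx => by have := h2 x hx; omega),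
        h0 l (fun hx => by have := h1 x hx; omega)]
      omega
    · rw [Function.update_of_ne (ne_of_lt h), h0 l (fun hx => by have := h1 x hx; omega)]
      have := ihr hr
      omega

lemma run_replicate (f : ℕ → ℕ) (x : ℕ) (T : BST) (j : ℕ) :
    (run f T (List.replicate j x)).1 = Function.update f x (f x + j) ∧
    mtr x (run f T (List.replicate j x)).2 = mtr x T := by
  induction j with
  | zero => simp [run]
  | succ j ih =>
    rw [List.replicate_succ', run_append]
    constructor
    · simp only [run, ih.1]
      funext v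
      by_cases hv : v = x
      · subst hv
        simp [add_assoc]
      · simp [Function.update_of_ne hv]
    · simp only [run]
      rw [mtr_climb, ih.2]

/-- After sufficiently many accesses `x` is at the root. -/
lemma run_many (f : ℕ → ℕ) {x : ℕ} {T : BST} (hT : Srt T) (hx : x ∈ T.inorder) {K : ℕ}
    (hK : wt f T < K) :
    run f T (List.replicate K x) = (Function.update f x (f x + K), mtr x T) := by
  obtain ⟨j, rfl⟩ : ∃ j, K = j + 1 := ⟨K - 1, by omega⟩
  obtain ⟨h1, h2⟩ := run_replicate f x T j
  have h3 := (run_replicate f x T (j + 1)).1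
  refine Prod.ext h3 ?_
  rw [List.replicate_succ', run_append]
  simp only [run]
  have hi : (run f T (List.replicate j x)).2.inorder = T.inorder := inorder_run _ _ _
  have hS : Srt (run f T (List.replicate j x)).2 := by
    unfold Srt
    rw [hi]
    exact hT
  have hf : Function.update (run f T (List.replicate j x)).1 x
      ((run f T (List.replicate j x)).1 x + 1) = Function.update f x (f x + (j + 1)) := by
    rw [h1]
    funext v
    by_cases hv : v = x
    · subst hv
      simp [add_assoc]
    · simp [Function.update_of_ne hv]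
  rw [hf, climb_dominant (depth x (run f T (List.replicate j x)).2) _ hS (by rw [hi]; exact hx) ?_
    rfl, h2]
  have h4 := wt_update_le (f := f) (x := x) (K := j + 1) hS
  have h5 : wt f (run f T (List.replicate j x)).2 = wt f T := by rw [wt_eq, wt_eq, hi]
  rw [h5] at h4
  rw [Function.update_self]
  omega

lemma force {T₀ : BST} (hT₀ : Srt T₀) : ∀ o : List ℕ, o.Nodup → (∀ x ∈ o, x ∈ T₀.inorder) →
    ∃ π : List ℕ, (∀ x ∈ π, x ∈ o) ∧ (run (fun _ => 0) T₀ π).2 = o.foldr mtr T₀ ∧
      o.Pairwise (fun a c => (run (fun _ => 0) T₀ π).1 c ≤ (run (fun _ => 0) T₀ π).1 a) := by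
  intro o
  induction o with
  | nil => intro _ _; exact ⟨[], by simp, rfl, List.Pairwise.nil⟩
  | cons x o ih =>
    intro hn hm
    rw [List.nodup_cons] at hn
    obtain ⟨π, h1, h2, h3⟩ := ih hn.2 fun y hy => hm y (List.mem_cons_of_mem _ hy)
    have hi : (run (fun _ => 0) T₀ π).2.inorder = T₀.inorder := inorder_run _ _ _
    have hS : Srt (run (fun _ => 0) T₀ π).2 := by
      unfold Srt
      rw [hi]
      exact hT₀
    set f := (run (fun _ => 0) T₀ π).1 with hf
    set T := (run (fun _ => 0) T₀ π).2 with hT
    have hr := run_many f (x := x) (K := wt f T + 1) hS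
      (by rw [hi]; exact hm x List.mem_cons_self) (Nat.lt_succ_self _)
    refine ⟨π ++ List.replicate (wt f T + 1) x, ?_, ?_, ?_⟩
    · intro y hy
      rw [List.mem_append, List.mem_replicate] at hy
      rcases hy with hy | hy
      · exact List.mem_cons_of_mem _ (h1 y hy)
      · rw [hy.2]
        exact List.mem_cons_self
    · rw [run_append, ← hf, ← hT, hr, h2]
      rfl
    · rw [run_append, ← hf, ← hT, hr]
      rw [List.pairwise_cons]
      constructor
      · intro y hy
        have hyx : y ≠ x := fun h => hn.1 (h ▸ hy)
        simp only [Function.update_of_ne hyx, Function.update_self]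
        have := le_wt f (T := T) (x := y) (by rw [hi]; exact hm y (List.mem_cons_of_mem _ hy))
        omega
      · refine List.Pairwise.imp_of_mem (fun {a c} ha hc hac => ?_) h3
        have hax : a ≠ x := fun h => hn.1 (h ▸ ha)
        have hcx : c ≠ x := fun h => hn.1 (h ▸ hc)
        simpa only [Function.update_of_ne hax, Function.update_of_ne hcx] using hac

/-- From every initial tree the zigzag path can be forced, with counters which do not increase along
the path. -/
theorem force_zz {n : ℕ} {T₀ : BST} (hT₀ : On n T₀) :
    ∃ π : List ℕ, (∀ x ∈ π, 1 ≤ x ∧ x ≤ n) ∧ (run (fun _ => 0) T₀ π).2 = zz n 1 true ∧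
      (ord n 1 true).Pairwise
        (fun a c => (run (fun _ => 0) T₀ π).1 c ≤ (run (fun _ => 0) T₀ π).1 a) := by
  obtain ⟨π, h1, h2, h3⟩ := force hT₀.srt (ord n 1 true) (nodup_ord n 1 true) (by
    intro x hx
    rw [mem_ord] at hx
    rw [hT₀, List.mem_range'_1]
    omega)
  refine ⟨π, fun x hx => ?_, ?_, h3⟩
  · have := (mem_ord n 1 true x).1 (h1 x hx)
    omega
  · have hi : (run (fun _ => 0) T₀ π).2.inorder = T₀.inorder := inorder_run _ _ _
    have h4 := restrict_foldr T₀ n 0 true
    rw [show 0 + 1 + n = n + 1 by ring, show 0 + 1 = 1 by rfl, ← h2, gtT_self, ltT_self] at h4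
    · exact h4
    · intro x hx
      rw [hi, hT₀, List.mem_range'_1] at hx
      omega
    · intro x hx
      rw [hi, hT₀, List.mem_range'_1] at hx
      omega

end BST

end Pool.Agent.R566.WPL
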