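import Mathlib

/-!
# Binary search trees with rotations, and the WPL tree algorithm
-/

set_option autoImplicit false

namespace Pool.Agent.R566.WPL

/-- Binary trees with a natural number (a key) at every node. -/
inductive BST where
  | leaf : BST
  | node : BST → ℕ → BST → BST

namespace BST

/-- The keys of a tree in symmetric order. -/
def inorder : BST → List ℕ
  | leaf => []
  | node l k r => l.inorder ++ k :: r.inorder

/-- `T` is a binary search tree on the keys `1, …, n`: it stores exactly these keys, in symmetric
order. -/
def On (n : ℕ) (T : BST) : Prop := T.inorder = List.range' 1 n

/-- The depth of the key `x` in a search tree: the number of edges of the search path from the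
root to `x` (so the root has depth `0`). -/
def depth (x : ℕ) : BST → ℕ
  | leaf => 0
  | node l k r => if x < k then depth x l + 1 else if k < x then depth x r + 1 else 0

/-- `x` is the key of the root. -/
def rootIs (x : ℕ) : BST → Prop
  | leaf => False
  | node _ k _ => k = x

instance (x : ℕ) (T : BST) : Decidable (rootIs x T) := by
  cases T <;> unfold rootIs <;> infer_instance

/-- Rotate the edge between the root and its left child: the left child becomes the root. -/
def rotateRight : BST → BST
  | node (node a x b) y c => node a x (node b y c)
  | T => T

/-- Rotate the edge between the root and its right child: the right child becomes the root. -/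
def rotateLeft : BST → BST
  | node a x (node b y c) => node (node a x b) y c
  | T => T

/-- Rotate `x` over its parent (nothing happens if `x` is the root). -/
def rotUp (x : ℕ) : BST → BST
  | leaf => leaf
  | node l k r =>
    if x < k then
      if rootIs x l then rotateRight (node l k r) else node (rotUp x l) k r
    else if k < x then
      if rootIs x r then rotateLeft (node l k r) else node l k (rotUp x r)
    else node l k r

/-- The weighted path length `∑ f(i) (1 + depth(i))`, over all keys `i` of the tree. -/
def wpl (f : ℕ → ℕ) (T : BST) : ℕ :=
  (T.inorder.map fun i => f i * (1 + depth i T)).sum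

/-- The rotations made after an access to `x`, when the counters are `f`: `x` is rotated over its
parent as long as this strictly decreases the weighted path length of the whole tree.  The first
argument bounds the number of rotations; it is the depth of `x`.  Returns the new tree and the
number of rotations. -/
def climb (f : ℕ → ℕ) (x : ℕ) : ℕ → BST → BST × ℕ
  | 0, T => (T, 0)
  | m + 1, T =>
    if wpl f (rotUp x T) < wpl f T then
      ((climb f x m (rotUp x T)).1, (climb f x m (rotUp x T)).2 + 1)
    else (T, 0)

/-- The cost of the WPL tree algorithm on a sequence of accesses, from the tree `T` with the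
counters `f`.  For every access to `x`: pay `1 + depth(x)`, increase the counter of `x` by one, then
rotate as in `climb` and pay `1` for every rotation. -/
def wplCostFrom : (ℕ → ℕ) → BST → List ℕ → ℕ
  | _, _, [] => 0
  | f, T, x :: σ =>
    (1 + depth x T) +
    (climb (Function.update f x (f x + 1)) x (depth x T) T).2 +
    wplCostFrom (Function.update f x (f x + 1))
      (climb (Function.update f x (f x + 1)) x (depth x T) T).1 σ

/-- The total cost of the WPL tree algorithm on `σ` from the initial tree `T₀`; all counters are
`0` at the start. -/
def wplCost (T₀ : BST) (σ : List ℕ) : ℕ := wplCostFrom (fun _ => 0) T₀ σ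

/-- The cost of serving `σ` in the tree `S`, which never changes. -/
def staticCost (S : BST) (σ : List ℕ) : ℕ := (σ.map fun x => 1 + depth x S).sum

/-- The cost of an optimal static tree on the keys `1, …, n` for `σ`. -/
noncomputable def optStatic (n : ℕ) (σ : List ℕ) : ℕ :=
  sInf {c | ∃ S : BST, On n S ∧ c = staticCost S σ}

/-- `T'` is obtained from `T` by one rotation (of any edge). -/
inductive Rot : BST → BST → Prop
  | right (a : BST) (x : ℕ) (b : BST) (y : ℕ) (c : BST) :
      Rot (node (node a x b) y c) (node a x (node b y c))
  | left (a : BST) (x : ℕ) (b : BST) (y : ℕ) (c : BST) :
      Rot (node a x (node b y c)) (node (node a x b) y c)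
  | inLeft {l l' : BST} (k : ℕ) (r : BST) : Rot l l' → Rot (node l k r) (node l' k r)
  | inRight (l : BST) (k : ℕ) {r r' : BST} : Rot r r' → Rot (node l k r) (node l k r')

/-- `Serves T σ c`: an offline algorithm can serve `σ` from the tree `T` at total cost `c`, where an
access to `x` costs the number `1 + depth(x)` of nodes on the path from the root to `x`, and every
rotation (made at any time) costs `1`. -/
inductive Serves : BST → List ℕ → ℕ → Prop
  | done (T : BST) : Serves T [] 0
  | rotate {T T' : BST} {σ : List ℕ} {c : ℕ} : Rot T T' → Serves T' σ c → Serves T σ (c + 1)
  | access {T : BST} {x : ℕ} {σ : List ℕ} {c : ℕ} : Serves T σ c →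
      Serves T (x :: σ) (c + (1 + depth x T))

/-- The minimum total cost of serving `σ` from the initial tree `T₀`, offline. -/
noncomputable def opt (T₀ : BST) (σ : List ℕ) : ℕ := sInf {c | Serves T₀ σ c}

end BST

end Pool.Agent.R566.WPL
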