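import Pool.Agent.R566.WPL.Force

/-!
# Upper bounds for the optimal costs, and the theorems
-/

set_option autoImplicit false

namespace Pool.Agent.R566.WPL

namespace BST

/-- A balanced tree on the keys `lo, …, lo + len - 1`, of height at most `h`. -/
def bal : ℕ → ℕ → ℕ → BST
  | 0, _, _ => leaf
  | h + 1, lo, len =>
    if len = 0 then leaf
    else node (bal h lo (len / 2)) (lo + len / 2) (bal h (lo + len / 2 + 1) (len - len / 2 - 1))

lemma inorder_bal (h : ℕ) : ∀ lo len : ℕ, len < 2 ^ h → (bal h lo len).inorder = List.range' lo len := by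
  induction h with
  | zero =>
    intro lo len hl
    have : len = 0 := by simpa using hl
    subst this
    rfl
  | succ h ih =>
    intro lo len hl
    have hp : 2 ^ (h + 1) = 2 * 2 ^ h := by ring
    by_cases h0 : len = 0
    · subst h0
      simp [bal, inorder]
    · simp only [bal, h0, if_false, inorder]
      rw [ih _ _ (by omega), ih _ _ (by omega), ← List.range'_succ, List.range'_append_1]
      congr 1
      omega

lemma depth_bal (h : ℕ) : ∀ lo len x : ℕ, len < 2 ^ h → x ∈ (bal h lo len).inorder →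
    1 + depth x (bal h lo len) ≤ h := by
  induction h with
  | zero =>
    intro lo len x _ hx
    simp [bal, inorder] at hx
  | succ h ih =>
    intro lo len x hl hx
    have hp : 2 ^ (h + 1) = 2 * 2 ^ h := by ring
    by_cases h0 : len = 0
    · subst h0
      simp [bal, inorder] at hx
    · have hx' := hx
      rw [inorder_bal (h + 1) lo len hl, List.mem_range'_1] at hx'
      simp only [bal, h0, if_false, depth]
      split_ifs with h1 h2
      · have := ih lo (len / 2) x (by omega) (by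
          rw [inorder_bal _ _ _ (by omega), List.mem_range'_1]
          omega)
        omega
      · have := ih (lo + len / 2 + 1) (len - len / 2 - 1) x (by omega) (by
          rw [inorder_bal _ _ _ (by omega), List.mem_range'_1]
          omega)
        omega
      · omega

/-- The balanced tree on `1, …, n`. -/
def balTree (n : ℕ) : BST := bal (Nat.log 2 n + 1) 1 n

lemma on_balTree (n : ℕ) : On n (balTree n) :=
  inorder_bal _ _ _ (Nat.lt_pow_succ_log_self (by norm_num) n)

lemma staticCost_balTree (n : ℕ) (σ : List ℕ) (h : ∀ x ∈ σ, 1 ≤ x ∧ x ≤ n) :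
    staticCost (balTree n) σ ≤ σ.length * (Nat.log 2 n + 1) := by
  unfold staticCost
  have h1 := List.sum_le_card_nsmul (σ.map fun x => 1 + depth x (balTree n)) (Nat.log 2 n + 1) (by
    intro y hy
    rw [List.mem_map] at hy
    obtain ⟨x, hx, rfl⟩ := hy
    refine depth_bal _ _ _ _ (Nat.lt_pow_succ_log_self (by norm_num) n) ?_
    have h2 := on_balTree n
    unfold On balTree at h2
    rw [h2, List.mem_range'_1]
    have := h x hx
    omega)
  simpa using h1

lemma optStatic_le {n : ℕ} {σ : List ℕ} (h : ∀ x ∈ σ, 1 ≤ x ∧ x ≤ n) :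
    optStatic n σ ≤ σ.length * (Nat.log 2 n + 1) :=
  le_trans (Nat.sInf_le (s := {c | ∃ S : BST, On n S ∧ c = staticCost S σ})
    ⟨balTree n, on_balTree n, rfl⟩) (staticCost_balTree n σ h)

/-! ### Connecting two search trees by rotations -/

lemma Rot.symm {T T' : BST} (h : Rot T T') : Rot T' T := by
  induction h with
  | right a x b y c => exact Rot.left a x b y c
  | left a x b y c => exact Rot.right a x b y c
  | inLeft k r _ ih => exact Rot.inLeft k r ih
  | inRight l k _ ih => exact Rot.inRight l k ih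

/-- The right spine. -/
def spine : List ℕ → BST
  | [] => leaf
  | k :: L => node leaf k (spine L)

lemma reach_spine_append (k : ℕ) (R : List ℕ) (L : List ℕ) :
    Relation.ReflTransGen Rot (node (spine L) k (spine R)) (spine (L ++ k :: R)) := by
  induction L with
  | nil => exact Relation.ReflTransGen.refl
  | cons x L ih =>
    refine Relation.ReflTransGen.head (Rot.right leaf x (spine L) k (spine R)) ?_
    simp only [List.cons_append, spine]
    exact ih.lift (fun t => node leaf x t) (fun _ _ h => Rot.inRight leaf x h)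

lemma reach_spine (T : BST) : Relation.ReflTransGen Rot T (spine T.inorder) := by
  induction T with
  | leaf => exact Relation.ReflTransGen.refl
  | node l k r ihl ihr =>
    have h1 : Relation.ReflTransGen Rot (node l k r) (node (spine l.inorder) k r) :=
      ihl.lift (fun t => node t k r) (fun _ _ h => Rot.inLeft k r h)
    have h2 : Relation.ReflTransGen Rot (node (spine l.inorder) k r)
        (node (spine l.inorder) k (spine r.inorder)) :=
      ihr.lift (fun t => node (spine l.inorder) k t) (fun _ _ h => Rot.inRight _ k h)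
    exact (h1.trans h2).trans (reach_spine_append k r.inorder l.inorder)

lemma reach {T T' : BST} (h : T.inorder = T'.inorder) : Relation.ReflTransGen Rot T T' := by
  have h1 := reach_spine T
  have h2 := reach_spine T'
  rw [h] at h1
  have h3 : Relation.ReflTransGen Rot (spine T'.inorder) T' := by
    have h4 := h2.swap
    exact h4.lift id (fun a b hab => Rot.symm hab)
  exact h1.trans h3

lemma serves_static (S : BST) (σ : List ℕ) : Serves S σ (staticCost S σ) := by
  induction σ with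
  | nil => exact Serves.done S
  | cons x σ ih =>
    have : staticCost S (x :: σ) = staticCost S σ + (1 + depth x S) := by
      simp only [staticCost, List.map_cons, List.sum_cons]
      ring
    rw [this]
    exact Serves.access ih

lemma opt_le {n : ℕ} {T₀ : BST} (hT₀ : On n T₀) : ∃ R : ℕ, ∀ σ : List ℕ,
    (∀ x ∈ σ, 1 ≤ x ∧ x ≤ n) → opt T₀ σ ≤ R + σ.length * (Nat.log 2 n + 1) := by
  have h1 : Relation.ReflTransGen Rot T₀ (balTree n) := reach (by rw [hT₀, on_balTree n])
  have h2 : ∃ R : ℕ, ∀ σ : List ℕ, Serves T₀ σ (staticCost (balTree n) σ + R) := by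
    clear hT₀
    induction h1 using Relation.ReflTransGen.head_induction_on with
    | refl => exact ⟨0, fun σ => serves_static _ σ⟩
    | head h _ ih =>
      obtain ⟨R, hR⟩ := ih
      exact ⟨R + 1, fun σ => Serves.rotate h (hR σ)⟩
  obtain ⟨R, hR⟩ := h2
  refine ⟨R, fun σ hσ => ?_⟩
  have h3 : opt T₀ σ ≤ staticCost (balTree n) σ + R := Nat.sInf_le (hR σ)
  have h4 := staticCost_balTree n σ hσ
  omega

/-! ### Lower bound for the cost of the WPL tree algorithm -/

/-- From every initial tree there is a sequence `π` such that after `π` and `m` further rounds the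
cost is at least `m n (n + 1) / 2`. -/
theorem cost_ge {n : ℕ} {T₀ : BST} (hT₀ : On n T₀) :
    ∃ π : List ℕ, (∀ x ∈ π, 1 ≤ x ∧ x ≤ n) ∧
      ∀ m : ℕ, m * (n * (n + 1)) ≤ 2 * wplCost T₀ (π ++ rounds n m) := by
  obtain ⟨π, h1, h2, h3⟩ := force_zz hT₀
  refine ⟨π, h1, fun m => ?_⟩
  unfold wplCost
  rw [wplCostFrom_append, h2]
  have h4 := cost_rounds n m _ h3
  omega

/-- The general comparison. -/
theorem exceeds {n : ℕ} (hn : 1 ≤ n) {T₀ : BST} (hT₀ : On n T₀) (O : List ℕ → ℕ)
    (hO : ∃ R : ℕ, ∀ σ : List ℕ, (∀ x ∈ σ, 1 ≤ x ∧ x ≤ n) →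
      O σ ≤ R + σ.length * (Nat.log 2 n + 1))
    (c₀ a : ℝ) (hc₀ : c₀ < ((n : ℝ) + 1) / (2 * ((Nat.log 2 n : ℕ) + 1 : ℝ))) :
    ∃ σ : List ℕ, (∀ x ∈ σ, 1 ≤ x ∧ x ≤ n) ∧ c₀ * (O σ : ℝ) + a < (wplCost T₀ σ : ℝ) := by
  obtain ⟨c, hcc, hc0, hc⟩ : ∃ c : ℝ, c₀ ≤ c ∧ 0 ≤ c ∧
      c < ((n : ℝ) + 1) / (2 * ((Nat.log 2 n : ℕ) + 1 : ℝ)) :=
    ⟨max c₀ 0, le_max_left _ _, le_max_right _ _, max_lt hc₀ (by positivity)⟩
  obtain ⟨π, h1, h2⟩ := cost_ge hT₀
  obtain ⟨R, hR⟩ := hO
  set k : ℝ := (Nat.log 2 n : ℕ) + 1 with hk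
  have hk0 : 0 < k := by positivity
  have hn0 : (0 : ℝ) < n := by exact_mod_cast hn
  -- the gain in one round
  set δ : ℝ := n * (((n : ℝ) + 1) / 2 - c * k) with hδ
  have hδ0 : 0 < δ := by
    refine mul_pos hn0 ?_
    rw [lt_div_iff₀ (by positivity)] at hc
    linarith
  obtain ⟨m, hm⟩ := exists_nat_gt ((c * (R + π.length * k) + a) / δ)
  rw [div_lt_iff₀ hδ0] at hm
  have hσ : ∀ x ∈ π ++ rounds n m, 1 ≤ x ∧ x ≤ n := by
    intro x hx
    rw [List.mem_append] at hx
    rcases hx with hx | hx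
    · exact h1 x hx
    · exact mem_rounds hx
  refine ⟨π ++ rounds n m, hσ, ?_⟩
  have h3 := h2 m
  have h4 := hR _ hσ
  rw [List.length_append, length_rounds] at h4
  have h3' : (m : ℝ) * (n * (n + 1)) ≤ 2 * (wplCost T₀ (π ++ rounds n m) : ℝ) := by
    exact_mod_cast h3
  have h4' : (O (π ++ rounds n m) : ℝ) ≤ R + (π.length + m * n) * k := by
    rw [hk]
    exact_mod_cast h4
  have h5 : c₀ * (O (π ++ rounds n m) : ℝ) ≤ c * (R + (π.length + m * n) * k) :=
    (mul_le_mul_of_nonneg_right hcc (Nat.cast_nonneg _)).trans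
      (mul_le_mul_of_nonneg_left h4' hc0)
  have h6 : (m : ℝ) * δ = m * (n * (n + 1)) / 2 - c * (m * n * k) := by
    rw [hδ]
    ring
  have h7 : c * (R + (π.length + m * n) * k) = c * (R + π.length * k) + c * (m * n * k) := by
    ring
  linarith

/-! ### Growth of the bound -/

/-- `(2 ^ k + 1) / (2 (k + 1))` eventually exceeds `c (k + 1)` (hence also `c`). -/
lemma exists_lt_ratio_mul (c : ℝ) : ∃ k : ℕ, 1 ≤ k ∧
    c * ((k : ℝ) + 1) < (((2 ^ k : ℕ) : ℝ) + 1) / (2 * ((Nat.log 2 (2 ^ k) : ℕ) + 1 : ℝ)) := by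
  have h := tendsto_pow_const_div_const_pow_of_one_lt 2 (show (1 : ℝ) < 2 by norm_num)
  have h1 : Filter.Tendsto (fun k : ℕ => ((k + 1 : ℕ) : ℝ) ^ 2 / 2 ^ (k + 1)) Filter.atTop (nhds 0) :=
    (Filter.tendsto_add_atTop_iff_nat 1).2 h
  have h2 := h1.eventually (gt_mem_nhds (show (0 : ℝ) < 1 / (4 * (|c| + 1)) by positivity))
  obtain ⟨k, hk, hk1⟩ := (h2.and (Filter.eventually_ge_atTop 1)).exists
  refine ⟨k, hk1, ?_⟩
  rw [Nat.log_pow (by norm_num)]
  have hp : (0 : ℝ) < 2 ^ (k + 1) := by positivity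
  have hc0 : 0 < |c| + 1 := by positivity
  rw [div_lt_div_iff₀ hp (by positivity)] at hk
  rw [lt_div_iff₀ (by positivity)]
  push_cast at hk ⊢
  have h3 : c ≤ |c| := le_abs_self c
  have h4 : (0 : ℝ) ≤ (k : ℝ) := Nat.cast_nonneg _
  have h5 : c * ((k : ℝ) + 1) * (2 * (k + 1)) ≤ 2 * (|c| + 1) * ((k : ℝ) + 1) ^ 2 := by
    have : c * ((k : ℝ) + 1) ^ 2 ≤ (|c| + 1) * ((k : ℝ) + 1) ^ 2 :=
      mul_le_mul_of_nonneg_right (by linarith) (by positivity)
    nlinarith
  have h6 : (2 : ℝ) ^ (k + 1) = 2 * 2 ^ k := by ring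
  nlinarith

lemma exists_lt_ratio (c : ℝ) : ∃ k : ℕ,
    c < (((2 ^ k : ℕ) : ℝ) + 1) / (2 * ((Nat.log 2 (2 ^ k) : ℕ) + 1 : ℝ)) := by
  obtain ⟨k, _, hk⟩ := exists_lt_ratio_mul |c|
  refine ⟨k, lt_of_le_of_lt ?_ hk⟩
  have h1 : c ≤ |c| := le_abs_self c
  have h2 : (0 : ℝ) ≤ |c| := abs_nonneg c
  have h3 : (0 : ℝ) ≤ (k : ℝ) := Nat.cast_nonneg _
  nlinarith

end BST

end Pool.Agent.R566.WPL
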