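import Pool.Agent.R566.WPL.Basic

/-!
# The zigzag path is never changed, and it can be forced from every initial tree
-/

set_option autoImplicit false

namespace Pool.Agent.R566.WPL

namespace BST

/-- The zigzag path on the keys `lo, …, lo + n - 1`; the root is the smallest key (`true`) or the
largest key (`false`). -/
def zz : ℕ → ℕ → Bool → BST
  | 0, _, _ => leaf
  | n + 1, lo, true => node leaf lo (zz n (lo + 1) false)
  | n + 1, lo, false => node (zz n lo true) (lo + n) leaf

/-- The keys of the zigzag path from the root to the last node. -/
def ord : ℕ → ℕ → Bool → List ℕ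
  | 0, _, _ => []
  | n + 1, lo, true => lo :: ord n (lo + 1) false
  | n + 1, lo, false => (lo + n) :: ord n lo true

lemma mem_ord (n : ℕ) : ∀ (lo : ℕ) (b : Bool) (x : ℕ), x ∈ ord n lo b ↔ lo ≤ x ∧ x < lo + n := by
  induction n with
  | zero => intro lo b x; simp [ord]
  | succ n ih =>
    intro lo b x
    cases b
    · simp only [ord, List.mem_cons, ih]
      omega
    · simp only [ord, List.mem_cons, ih]
      omega

lemma length_ord (n : ℕ) : ∀ (lo : ℕ) (b : Bool), (ord n lo b).length = n := by
  induction n with
  | zero => intro lo b; rfl
  | succ n ih =>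
    intro lo b
    cases b <;> simp [ord, ih]

lemma nodup_ord (n : ℕ) : ∀ (lo : ℕ) (b : Bool), (ord n lo b).Nodup := by
  induction n with
  | zero => intro lo b; simp [ord]
  | succ n ih =>
    intro lo b
    cases b
    · simp only [ord, List.nodup_cons, mem_ord, ih, and_true]
      omega
    · simp only [ord, List.nodup_cons, mem_ord, ih, and_true]
      omega

lemma wplFrom_le_rotUp_zz (f : ℕ → ℕ) (x : ℕ) (n : ℕ) : ∀ (lo : ℕ) (b : Bool) (d : ℕ),
    (ord n lo b).Pairwise (fun a c => f c ≤ f a) →
    wplFrom f d (zz n lo b) ≤ wplFrom f d (rotUp x (zz n lo b)) := by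
  induction n with
  | zero => intro lo b d _; exact le_refl _
  | succ n ih =>
    intro lo b d hp
    cases b
    · simp only [ord, List.pairwise_cons] at hp
      simp only [zz, rotUp]
      split_ifs with h1 h2 h3 h4
      · cases n with
        | zero => simp [zz, rootIs] at h2
        | succ m =>
          simp only [zz, rootIs] at h2
          subst h2
          have h5 := hp.1 lo (by simp [ord])
          simp only [zz, rotateRight, wplFrom]
          nlinarith
      · simp only [wplFrom]
        have := ih lo true (d + 1) hp.2
        omega
      · simp [rootIs] at h4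
      · exact le_refl _
      · exact le_refl _
    · simp only [ord, List.pairwise_cons] at hp
      simp only [zz, rotUp]
      split_ifs with h1 h2 h3 h4
      · simp [rootIs] at h2
      · exact le_refl _
      · cases n with
        | zero => simp [zz, rootIs] at h4
        | succ m =>
          simp only [zz, rootIs] at h4
          subst h4
          have h5 := hp.1 (lo + 1 + m) (by simp [ord])
          simp only [zz, rotateLeft, wplFrom]
          nlinarith
      · simp only [wplFrom]
        have := ih (lo + 1) false (d + 1) hp.2
        omega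
      · exact le_refl _

lemma inorder_zz (n : ℕ) : ∀ (lo : ℕ) (b : Bool), (zz n lo b).inorder = List.range' lo n := by
  induction n with
  | zero => intro lo b; rfl
  | succ n ih =>
    intro lo b
    cases b
    · simp only [zz, inorder, ih]
      rw [List.range'_concat]
      simp
    · simp only [zz, inorder, ih, List.nil_append]
      rw [List.range'_succ]

lemma srt_zz (n lo : ℕ) (b : Bool) : Srt (zz n lo b) := by
  unfold Srt
  rw [inorder_zz]
  exact List.pairwise_lt_range' (s := lo) (n := n) (step := 1) (by norm_num)

lemma climb_zz {f : ℕ → ℕ} {n lo : ℕ} {b : Bool} (x : ℕ)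
    (h : (ord n lo b).Pairwise (fun a c => f c ≤ f a)) (m : ℕ) :
    climb f x m (zz n lo b) = (zz n lo b, 0) := by
  cases m with
  | zero => rfl
  | succ m =>
    simp only [climb]
    rw [wpl_eq f (srt_rotUp (srt_zz n lo b)), wpl_eq f (srt_zz n lo b),
      if_neg (not_lt.2 (wplFrom_le_rotUp_zz f x n lo b 0 h))]

/-- The counters increased by one on the keys of a list. -/
def bump (f : ℕ → ℕ) (p : List ℕ) : ℕ → ℕ := fun v => f v + if v ∈ p then 1 else 0

lemma bump_update {f : ℕ → ℕ} {p : List ℕ} {x : ℕ} (hx : x ∉ p) :
    Function.update (bump f p) x (bump f p x + 1) = bump f (p ++ [x]) := by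
  funext v
  by_cases hv : v = x
  · subst hv
    simp [bump, hx]
  · rw [Function.update_of_ne hv]
    simp [bump, hv]

lemma bump_pairwise {f : ℕ → ℕ} {p q : List ℕ} (hn : (p ++ q).Nodup)
    (h : (p ++ q).Pairwise (fun a c => f c ≤ f a)) :
    (p ++ q).Pairwise (fun a c => bump f p c ≤ bump f p a) := by
  rw [List.pairwise_append] at h ⊢
  have hd : ∀ v ∈ q, v ∉ p := fun v hv hv' => (List.nodup_append'.1 hn).2.2 hv' hv
  refine ⟨?_, ?_, ?_⟩
  · refine List.Pairwise.imp_of_mem (fun {a c} ha hc hac => ?_) h.1
    simpa [bump, ha, hc] using hac
  · refine List.Pairwise.imp_of_mem (fun {a c} ha hc hac => ?_) h.2.1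
    simpa [bump, hd a ha, hd c hc] using hac
  · intro a ha c hc
    have := h.2.2 a ha c hc
    simp only [bump, ha, hd c hc, if_true, if_false]
    omega

lemma round_aux (f : ℕ → ℕ) (n : ℕ)
    (hf : (ord n 1 true).Pairwise (fun a c => f c ≤ f a)) : ∀ (q p : List ℕ),
    ord n 1 true = p ++ q →
    wplCostFrom (bump f p) (zz n 1 true) q = (q.map fun x => 1 + depth x (zz n 1 true)).sum ∧
    run (bump f p) (zz n 1 true) q = (bump f (p ++ q), zz n 1 true) := by
  intro q
  induction q with
  | nil => intro p _; simp [wplCostFrom, run]
  | cons x q ih =>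
    intro p hp
    have hnd := nodup_ord n 1 true
    rw [hp] at hnd
    have hx : x ∉ p := fun h => (List.nodup_append'.1 hnd).2.2 h List.mem_cons_self
    have hp' : ord n 1 true = (p ++ [x]) ++ q := by rw [hp]; simp
    have hpw : (ord n 1 true).Pairwise
        (fun a c => bump f (p ++ [x]) c ≤ bump f (p ++ [x]) a) := by
      rw [hp'] at hf ⊢
      refine bump_pairwise ?_ hf
      rw [← hp']
      exact nodup_ord n 1 true
    obtain ⟨h1, h2⟩ := ih (p ++ [x]) hp'
    have hc := climb_zz x hpw (depth x (zz n 1 true))
    constructor
    · simp only [wplCostFrom, bump_update hx, hc, h1, List.map_cons, List.sum_cons, add_zero]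
    · simp only [run, bump_update hx, hc, h2, List.append_assoc, List.cons_append, List.nil_append]

lemma two_mul_sum_depth (n : ℕ) : ∀ (lo : ℕ) (b : Bool),
    2 * ((ord n lo b).map fun x => 1 + depth x (zz n lo b)).sum = n * (n + 1) := by
  induction n with
  | zero => intro lo b; simp [ord]
  | succ n ih =>
    intro lo b
    cases b
    · simp only [ord, zz, List.map_cons, List.sum_cons]
      have h1 : ((ord n lo true).map fun x => 1 + depth x (node (zz n lo true) (lo + n) leaf)).sum
          = n + ((ord n lo true).map fun x => 1 + depth x (zz n lo true)).sum := by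
        have : ((ord n lo true).map fun x => 1 + depth x (node (zz n lo true) (lo + n) leaf)) =
            ((ord n lo true).map fun x => 1 + (1 + depth x (zz n lo true))) := by
          refine List.map_congr_left fun x hx => ?_
          rw [mem_ord] at hx
          simp only [depth, hx.2, if_true]
          ring
        rw [this, List.sum_map_add]
        simp [length_ord]
      rw [h1]
      have h2 := ih lo true
      simp only [depth, lt_irrefl, if_false]
      nlinarith
    · simp only [ord, zz, List.map_cons, List.sum_cons]
      have h1 : ((ord n (lo + 1) false).map fun x => 1 + depth x (node leaf lo (zz n (lo + 1) false))).sum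
          = n + ((ord n (lo + 1) false).map fun x => 1 + depth x (zz n (lo + 1) false)).sum := by
        have : ((ord n (lo + 1) false).map fun x => 1 + depth x (node leaf lo (zz n (lo + 1) false)))
            = ((ord n (lo + 1) false).map fun x => 1 + (1 + depth x (zz n (lo + 1) false))) := by
          refine List.map_congr_left fun x hx => ?_
          rw [mem_ord] at hx
          have h3 : lo < x := by omega
          have h4 : ¬ x < lo := by omega
          simp only [depth, h3, h4, if_true, if_false]
          ring
        rw [this, List.sum_map_add]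
        simp [length_ord]
      rw [h1]
      have h2 := ih (lo + 1) false
      simp only [depth, lt_irrefl, if_false]
      nlinarith

/-- `m` rounds of accesses to all keys, along the zigzag path. -/
def rounds (n m : ℕ) : List ℕ := (List.replicate m (ord n 1 true)).flatten

lemma length_rounds (n m : ℕ) : (rounds n m).length = m * n := by
  unfold rounds
  simp [List.length_flatten, length_ord]

lemma mem_rounds {n m x : ℕ} (h : x ∈ rounds n m) : 1 ≤ x ∧ x ≤ n := by
  unfold rounds at h
  rw [List.mem_flatten] at h
  obtain ⟨l, hl, hx⟩ := h
  rw [List.mem_replicate] at hl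
  rw [hl.2, mem_ord] at hx
  omega

lemma bump_nil (f : ℕ → ℕ) : bump f [] = f := by
  funext v
  simp [bump]

lemma cost_rounds (n m : ℕ) : ∀ (f : ℕ → ℕ),
    (ord n 1 true).Pairwise (fun a c => f c ≤ f a) →
    2 * wplCostFrom f (zz n 1 true) (rounds n m) = m * (n * (n + 1)) := by
  induction m with
  | zero => intro f _; simp [rounds, wplCostFrom]
  | succ m ih =>
    intro f hf
    have h1 := round_aux f n hf (ord n 1 true) [] rfl
    rw [bump_nil] at h1
    have h2 : rounds n (m + 1) = ord n 1 true ++ rounds n m := by
      simp [rounds, List.replicate_succ]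
    rw [h2, wplCostFrom_append, h1.1, h1.2]
    simp only [List.nil_append]
    have h3 : (ord n 1 true).Pairwise
        (fun a c => bump f (ord n 1 true) c ≤ bump f (ord n 1 true) a) := by
      have h4 := bump_pairwise (f := f) (p := ord n 1 true) (q := [])
      simp only [List.append_nil] at h4
      exact h4 (nodup_ord n 1 true) hf
    have h5 := ih _ h3
    have h6 := two_mul_sum_depth n 1 true
    rw [mul_add, h5, h6]
    ring

end BST

end Pool.Agent.R566.WPL
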